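import Pool.Agent.N805.JG.Stm

/-!
# Project JG (helper805), part DET: long and short blocks in terms of the numbers of points in arcs
-/

set_option autoImplicit false

namespace Pool.Agent.N684.JG

open Pool.Agent.N805.JG

section

variable {M : ℕ} (hM : 0 < M) (θ : Fin M → ℝ)

theorem pt_eq (hM : 0 < M) (n : ℕ) :
    pt θ n = M * (θ (Tuple.sort θ ⟨n % M, Nat.mod_lt n hM⟩) + (n / M : ℕ)) := by
  unfold pt
  rw [dif_pos hM]

theorem pt_mono (hM : 0 < M) (hθ : ∀ i, θ i ∈ Set.Ico (0 : ℝ) 1) : Monotone (pt θ) := by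
  intro a b hab
  rw [pt_eq θ hM, pt_eq θ hM]
  have hMR : (0 : ℝ) < M := by exact_mod_cast hM
  apply mul_le_mul_of_nonneg_left _ hMR.le
  have hq : a / M ≤ b / M := Nat.div_le_div_right hab
  rcases hq.eq_or_lt with h | h
  · have hr : a % M ≤ b % M := by
      have h1 := Nat.div_add_mod a M
      have h2 := Nat.div_add_mod b M
      rw [h] at h1
      omega
    have hs := Tuple.monotone_sort θ
    have := hs (show (⟨a % M, Nat.mod_lt a hM⟩ : Fin M) ≤ ⟨b % M, Nat.mod_lt b hM⟩ from hr)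
    simp only [Function.comp] at this
    rw [h]
    linarith
  · have h1 := (hθ (Tuple.sort θ ⟨a % M, Nat.mod_lt a hM⟩)).2
    have h2 := (hθ (Tuple.sort θ ⟨b % M, Nat.mod_lt b hM⟩)).1
    have h3 : ((a / M : ℕ) : ℝ) + 1 ≤ ((b / M : ℕ) : ℝ) := by exact_mod_cast h
    linarith

theorem pt_add (hM : 0 < M) (n : ℕ) : pt θ (n + M) = pt θ n + M := by
  rw [pt_eq θ hM, pt_eq θ hM]
  have h1 : (n + M) % M = n % M := Nat.add_mod_right n M
  have h2 : (n + M) / M = n / M + 1 := Nat.add_div_right n hM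
  simp only [h1, h2]
  push_cast
  ring

theorem pt_lift (hM : 0 < M) (i : Fin M) (q : ℕ) :
    pt θ (((Tuple.sort θ).symm i : ℕ) + q * M) = M * (θ i + q) := by
  rw [pt_eq θ hM]
  have hlt := ((Tuple.sort θ).symm i).2
  have h1 : (((Tuple.sort θ).symm i : ℕ) + q * M) % M = ((Tuple.sort θ).symm i : ℕ) := by
    rw [Nat.add_mul_mod_self_right, Nat.mod_eq_of_lt hlt]
  have h2 : (((Tuple.sort θ).symm i : ℕ) + q * M) / M = q := by
    rw [Nat.add_mul_div_right _ _ hM, Nat.div_eq_of_lt hlt, zero_add]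
  have h3 : (⟨(((Tuple.sort θ).symm i : ℕ) + q * M) % M, Nat.mod_lt _ hM⟩ : Fin M)
      = (Tuple.sort θ).symm i := Fin.ext h1
  rw [h3, h2, Equiv.apply_symm_apply]

theorem pt_small (hM : 0 < M) {a : ℕ} (ha : a < M) :
    pt θ a = M * θ (Tuple.sort θ ⟨a, ha⟩) := by
  rw [pt_eq θ hM]
  have h3 : (⟨a % M, Nat.mod_lt _ hM⟩ : Fin M) = ⟨a, ha⟩ := Fin.ext (Nat.mod_eq_of_lt ha)
  rw [h3, Nat.div_eq_of_lt ha]
  simp

/-- the lift of a counted point -/
theorem exists_lift (hM : 0 < M) (hθ : ∀ i, θ i ∈ Set.Ico (0 : ℝ) 1) {s u : ℝ} (hs0 : 0 ≤ s)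
    (hsM : s ≤ M) {i : Fin M} (hi : Int.fract (θ i - s / M) * M < u) :
    ∃ q : ℕ, s ≤ M * (θ i + q) ∧ M * (θ i + q) < s + u := by
  have hMR : (0 : ℝ) < M := by exact_mod_cast hM
  have h0 := (hθ i).1
  have h1 := (hθ i).2
  have hsd : s / M * M = s := div_mul_cancel₀ s hMR.ne'
  have hs1 : s / M ≤ 1 := (div_le_one hMR).2 hsM
  have hs2 : 0 ≤ s / M := div_nonneg hs0 hMR.le
  by_cases hz : 0 ≤ θ i - s / M
  · have hf : Int.fract (θ i - s / M) = θ i - s / M :=
      Int.fract_eq_self.2 ⟨hz, by linarith⟩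
    rw [hf] at hi
    refine ⟨0, ?_, ?_⟩
    · have := mul_nonneg hz hMR.le
      push_cast
      nlinarith
    · push_cast
      nlinarith
  · push Not at hz
    have hf : Int.fract (θ i - s / M) = θ i - s / M + 1 := by
      rw [← Int.fract_add_one]
      exact Int.fract_eq_self.2 ⟨by linarith, by linarith⟩
    rw [hf] at hi
    refine ⟨1, ?_, ?_⟩
    · have : 0 ≤ (θ i - s / M + 1) * M := mul_nonneg (by linarith) hMR.le
      push_cast
      nlinarith
    · push_cast
      nlinarith

/-- a point of the periodic sequence in a short window is counted -/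
theorem fract_pt (hM : 0 < M) {s : ℝ} {b : ℕ} (h0 : s ≤ pt θ b) (h1 : pt θ b < s + M) :
    Int.fract (θ (Tuple.sort θ ⟨b % M, Nat.mod_lt b hM⟩) - s / M) * M = pt θ b - s := by
  have hMR : (0 : ℝ) < M := by exact_mod_cast hM
  have he : θ (Tuple.sort θ ⟨b % M, Nat.mod_lt b hM⟩) - s / M
      = (pt θ b - s) / M - ((b / M : ℕ) : ℤ) := by
    rw [pt_eq θ hM, Int.cast_natCast]
    field_simp
    ring
  rw [he, Int.fract_sub_intCast]
  have hf : Int.fract ((pt θ b - s) / M) = (pt θ b - s) / M :=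
    Int.fract_eq_self.2 ⟨div_nonneg (by linarith) hMR.le, (div_lt_one hMR).2 (by linarith)⟩
  rw [hf, div_mul_cancel₀ _ hMR.ne']

theorem long_block (hM : 0 < M) (hθ : ∀ i, θ i ∈ Set.Ico (0 : ℝ) 1) {m y t a : ℕ} (hm : 1 ≤ m)
    (htM : t < M) (hta : (t : ℝ) ≤ pt θ a) (hta1 : pt θ a < t + 1)
    (hlong : (m : ℝ) + y < pt θ (a + m) - pt θ a) (hmM : m < M) :
    (m : ℝ) + y - 1 ≤ M ∧ (y : ℝ) ≤ |(cnt θ (t + 1) (m + y - 1) : ℝ) - (m + y - 1)| := by
  have hMR : (0 : ℝ) < M := by exact_mod_cast hM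
  have hmono := pt_mono θ hM hθ
  constructor
  · have h1 : pt θ (a + m) ≤ pt θ (a + M) := hmono (by omega)
    rw [pt_add θ hM] at h1
    linarith
  · have hcard : cnt θ (t + 1) (m + y - 1) ≤ m - 1 := by
      unfold cnt
      have key : ∀ i ∈ Finset.univ.filter
          (fun i => Int.fract (θ i - ((t : ℝ) + 1) / M) * M < (m : ℝ) + y - 1),
          ∃ b : ℕ, b ∈ Finset.Ioo a (a + m) ∧ b % M = ((Tuple.sort θ).symm i : ℕ) := by
        intro i hi
        rw [Finset.mem_filter] at hi
        obtain ⟨q, hq1, hq2⟩ := exists_lift θ hM hθ (s := (t : ℝ) + 1) (by positivity)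
          (by exact_mod_cast htM) hi.2
        refine ⟨((Tuple.sort θ).symm i : ℕ) + q * M, ?_, ?_⟩
        · rw [← pt_lift θ hM] at hq1 hq2
          rw [Finset.mem_Ioo]
          constructor
          · by_contra hcon
            push Not at hcon
            have := hmono hcon
            linarith
          · by_contra hcon
            push Not at hcon
            have := hmono hcon
            linarith
        · rw [Nat.add_mul_mod_self_right, Nat.mod_eq_of_lt ((Tuple.sort θ).symm i).2]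
      choose! f hf using key
      have hinj : Set.InjOn f ↑(Finset.univ.filter
          (fun i => Int.fract (θ i - ((t : ℝ) + 1) / M) * M < (m : ℝ) + y - 1)) := by
        intro i hi j hj hij
        have h1 := (hf i hi).2
        have h2 := (hf j hj).2
        rw [hij, h2] at h1
        have h3 : (Tuple.sort θ).symm j = (Tuple.sort θ).symm i := Fin.ext h1
        exact ((Tuple.sort θ).symm.injective h3).symm
      have := Finset.card_le_card_of_injOn f (fun i hi => (hf i hi).1) hinj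
      rw [Nat.card_Ioo] at this
      omega
    have hc : (cnt θ (t + 1) (m + y - 1) : ℝ) ≤ m - 1 := by
      have : ((m - 1 : ℕ) : ℝ) = (m : ℝ) - 1 := by
        rw [Nat.cast_sub hm]; simp
      rw [← this]
      exact_mod_cast hcard
    rw [abs_sub_comm]
    refine le_trans ?_ (le_abs_self _)
    linarith

theorem short_block (hM : 0 < M) (hθ : ∀ i, θ i ∈ Set.Ico (0 : ℝ) 1) {m y t a : ℕ}
    (hta : (t : ℝ) ≤ pt θ a) (hta1 : pt θ a < t + 1)
    (hshort : pt θ (a + m) - pt θ a < (m : ℝ) - y) (hmM : m < M) (hy : 1 ≤ y) :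
    (y : ℝ) ≤ m ∧ (y : ℝ) ≤ |(cnt θ t (m - y + 1) : ℝ) - (m - y + 1)| := by
  have hMR : (0 : ℝ) < M := by exact_mod_cast hM
  have hmono := pt_mono θ hM hθ
  have h0 : pt θ a ≤ pt θ (a + m) := hmono (by omega)
  constructor
  · linarith
  · have hyR : (1 : ℝ) ≤ y := by exact_mod_cast hy
    have hmMR : (m : ℝ) + 1 ≤ M := by exact_mod_cast hmM
    have hcard : m + 1 ≤ cnt θ t (m - y + 1) := by
      unfold cnt
      have := Finset.card_le_card_of_injOn (s := Finset.range (m + 1))
        (t := Finset.univ.filter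
          (fun i => Int.fract (θ i - (t : ℝ) / M) * M < (m : ℝ) - y + 1))
        (fun j => Tuple.sort θ ⟨(a + j) % M, Nat.mod_lt _ hM⟩) ?_ ?_
      · rw [Finset.card_range] at this
        exact this
      · intro j hj
        rw [Finset.mem_coe, Finset.mem_range] at hj
        rw [Finset.mem_coe, Finset.mem_filter]
        refine ⟨Finset.mem_univ _, ?_⟩
        have h1 : pt θ a ≤ pt θ (a + j) := hmono (by omega)
        have h2 : pt θ (a + j) ≤ pt θ (a + m) := hmono (by omega)
        rw [fract_pt θ hM (s := (t : ℝ)) (b := a + j) (by linarith) (by linarith)]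
        linarith
      · intro j hj k hk hjk
        rw [Finset.mem_coe, Finset.mem_range] at hj hk
        have h1 := (Tuple.sort θ).injective hjk
        have h2 : (a + j) % M = (a + k) % M := congrArg Fin.val h1
        have h3 : (a + j) ≡ (a + k) [MOD M] := h2
        have h4 : j ≡ k [MOD M] := Nat.ModEq.add_left_cancel' a h3
        exact Nat.ModEq.eq_of_lt_of_lt h4 (by omega) (by omega)
    have hc : (m : ℝ) + 1 ≤ (cnt θ t (m - y + 1) : ℝ) := by
      exact_mod_cast hcard
    refine le_trans ?_ (le_abs_self _)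
    linarith

end

theorem DET : Pool.Agent.N805.JG.S_DET := by
  intro M m y θ hθ hm hmM hy
  have hM : 0 < M := by omega
  have hMR : (0 : ℝ) < M := by exact_mod_cast hM
  classical
  -- the integer part of a point
  have hpt : ∀ a ∈ Finset.range M, (0 : ℝ) ≤ pt θ a ∧ pt θ a < M := by
    intro a ha
    rw [Finset.mem_range] at ha
    rw [pt_small θ hM ha]
    have h := hθ (Tuple.sort θ ⟨a, ha⟩)
    exact ⟨mul_nonneg hMR.le h.1, by nlinarith [h.2]⟩
  set A := (Finset.range M).filter fun a => (y : ℝ) < |pt θ (a + m) - pt θ a - m| with hA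
  have hmaps : ∀ a ∈ A, ⌊pt θ a⌋₊ ∈ Finset.range M := by
    intro a ha
    rw [hA, Finset.mem_filter] at ha
    obtain ⟨h0, h1⟩ := hpt a ha.1
    rw [Finset.mem_range]
    exact (Nat.floor_lt h0).2 h1
  rw [Finset.card_eq_sum_card_fiberwise hmaps]
  push_cast
  apply Finset.sum_le_sum
  intro t ht
  rw [Finset.mem_range] at ht
  rcases (A.filter fun a => ⌊pt θ a⌋₊ = t).eq_empty_or_nonempty with hemp | ⟨a, ha⟩
  · rw [hemp, Finset.card_empty]
    push_cast
    apply mul_nonneg (Nat.cast_nonneg _)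
    apply add_nonneg
    · split_ifs <;> norm_num
    · split_ifs <;> norm_num
  · -- the number of points with integer part `t`
    have hcnt : (A.filter fun a => ⌊pt θ a⌋₊ = t).card ≤ cnt θ t 1 := by
      unfold cnt
      apply Finset.card_le_card_of_injOn
        (fun b => if h : b < M then Tuple.sort θ ⟨b, h⟩ else Tuple.sort θ ⟨0, hM⟩)
      · intro b hb
        rw [Finset.mem_coe, Finset.mem_filter, hA, Finset.mem_filter] at hb
        obtain ⟨⟨hbM, -⟩, hbt⟩ := hb
        obtain ⟨h0, h1⟩ := hpt b hbM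
        rw [Finset.mem_range] at hbM
        have h2 : (t : ℝ) ≤ pt θ b := by rw [← hbt]; exact Nat.floor_le h0
        have h3 : pt θ b < t + 1 := by rw [← hbt]; exact Nat.lt_floor_add_one _
        rw [Finset.mem_coe, Finset.mem_filter]
        refine ⟨Finset.mem_univ _, ?_⟩
        have h4 := fract_pt θ hM (s := (t : ℝ)) (b := b) h2 (by
          have : (1 : ℝ) ≤ M := by exact_mod_cast hM
          linarith)
        have h5 : (⟨b % M, Nat.mod_lt b hM⟩ : Fin M) = ⟨b, hbM⟩ := Fin.ext (Nat.mod_eq_of_lt hbM)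
        rw [h5] at h4
        simp only [dif_pos hbM]
        rw [h4]
        linarith
      · intro b hb c hc hbc
        rw [Finset.mem_coe, Finset.mem_filter, hA, Finset.mem_filter, Finset.mem_range] at hb hc
        simp only [dif_pos hb.1.1, dif_pos hc.1.1] at hbc
        have := (Tuple.sort θ).injective hbc
        exact congrArg Fin.val this
    have hcntR : ((A.filter fun a => ⌊pt θ a⌋₊ = t).card : ℝ) ≤ (cnt θ t 1 : ℝ) := by
      exact_mod_cast hcnt
    rw [Finset.mem_filter, hA, Finset.mem_filter] at ha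
    obtain ⟨⟨haM, hay⟩, hat⟩ := ha
    obtain ⟨h0, h1⟩ := hpt a haM
    have h2 : (t : ℝ) ≤ pt θ a := by rw [← hat]; exact Nat.floor_le h0
    have h3 : pt θ a < t + 1 := by rw [← hat]; exact Nat.lt_floor_add_one _
    have hone : (1 : ℝ) ≤
      ((if (m : ℝ) + y - 1 ≤ M ∧ (y : ℝ) ≤ |(cnt θ (t + 1) (m + y - 1) : ℝ) - (m + y - 1)|
          then (1 : ℝ) else 0) +
       (if (y : ℝ) ≤ m ∧ (y : ℝ) ≤ |(cnt θ t (m - y + 1) : ℝ) - (m - y + 1)| then (1 : ℝ) else 0)) := by
      rcases lt_abs.1 hay with h | h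
      · rw [if_pos (long_block θ hM hθ hm ht h2 h3 (by linarith) hmM)]
        split_ifs <;> norm_num
      · have := short_block θ hM hθ (m := m) (y := y) (t := t) (a := a) h2 h3 (by linarith) hmM hy
        rw [if_pos this]
        split_ifs <;> norm_num
    calc ((A.filter fun a => ⌊pt θ a⌋₊ = t).card : ℝ) ≤ (cnt θ t 1 : ℝ) := hcntR
      _ ≤ _ := le_mul_of_one_le_right (Nat.cast_nonneg _) hone

end Pool.Agent.N684.JG
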